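import Pool.Agent.Lib.MP_840f9c_gt.Defs
import Pool.Agent.Lib.MP_840f9c_gt.H32Local

namespace Pool.Agent.Results.MP_840f9c_gt.CompactFactor

open Pool.Agent.Lib.MP_840f9c_gt Set

/-- A positive answer to Q2 (hence also to Q1): there is a compact Hausdorff space `Y` such that,
for the metric space `M = [0,1]`, the product `M × Y` is normal, `Ind M = 1`, `Ind Y = 2` and
`Ind (M × Y) > Ind M + Ind Y`. -/
theorem result : ∃ (Y : Type) (_ : TopologicalSpace Y),
    Nonempty Y ∧ T2Space Y ∧ CompactSpace Y ∧ NormalSpace Y ∧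
    NormalSpace (Set.Icc (0 : ℝ) 1 × Y) ∧ Ind (Set.Icc (0 : ℝ) 1) = 1 ∧ Ind Y = 2 ∧
    Ind (Set.Icc (0 : ℝ) 1) + Ind Y < Ind (Set.Icc (0 : ℝ) 1 × Y) := by
  have h1 : Ind (Set.Icc (0 : ℝ) 1) = 1 :=
    le_antisymm (by simpa using ind_le SLT_two_I)
      (by simpa using le_ind (not_SLT_one (isPreconnected_univ (α := unitInterval))
        (mem_univ 0) (mem_univ 1) zero_ne_one))
  have h2 : Ind H32.fam.YY = 2 := by
    refine le_antisymm (by simpa using ind_le H32.fam.SLT_YY) ?_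
    have : ¬ SLT 2 (univ : Set H32.fam.YY) := fun h => not_SLT_sq
      (h.pull LMC.isClosedEmbedding_bs)
    simpa using le_ind this
  have h3 : (4 : WithTop ℤ) ≤ Ind (Set.Icc (0 : ℝ) 1 × H32.fam.YY) := by
    simpa using le_ind H32.fam.not_SLT_four
  refine ⟨H32.fam.YY, inferInstance, ⟨LMC.bs H32.fam.psi (0, 0)⟩, inferInstance, inferInstance,
    inferInstance, inferInstance, h1, h2, ?_⟩
  rw [h1, h2]
  exact lt_of_lt_of_le (by exact_mod_cast (by norm_num : (1 : ℤ) + 2 < 4)) h3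

end Pool.Agent.Results.MP_840f9c_gt.CompactFactor
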