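import Pool.Agent.Lib.MP_840f9c_gt.Defs
import Pool.Agent.Lib.MP_840f9c_gt.Upper
import Pool.Agent.Lib.MP_840f9c_gt.Lower

namespace Pool.Agent.Results.MP_840f9c_gt.Counterexample

open Pool.Agent.Lib.MP_840f9c_gt Set

theorem zero_dim : SLT 1 (univ : Set ℕ∞) := by
  have := sum0 (Q := fun k : ℕ∞ => {k}) (fun _ => isClosed_singleton) (fun k A B _ _ hA hB hAB => by
    by_cases h : k ∈ A
    · exact ⟨univ, ∅, isOpen_univ, isOpen_empty, subset_univ _,
        fun x hx => disjoint_left.1 hAB h (hB hx ▸ hx), by simp, by simp [SLT]⟩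
    · exact ⟨∅, univ, isOpen_empty, isOpen_univ, fun x hx => h (hA hx ▸ hx), subset_univ _,
        by simp, by simp [SLT]⟩)
  rwa [iUnion_of_singleton] at this

/-- A positive answer to Q1: a countable compact metric space `M` (a convergent sequence) and a
sigma-compact normal Hausdorff space `Y` with `M × Y` normal, `Ind M = 0`, `Ind Y = 2` and
`Ind (M × Y) > Ind M + Ind Y`. -/
theorem result : ∃ (M Y : Type) (_ : MetricSpace M) (_ : TopologicalSpace Y),
    Nonempty M ∧ Nonempty Y ∧ T2Space Y ∧ NormalSpace Y ∧ NormalSpace (M × Y) ∧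
    CompactSpace M ∧ Countable M ∧ SigmaCompactSpace Y ∧
    Ind M = 0 ∧ Ind Y = 2 ∧ Ind M + Ind Y < Ind (M × Y) := by
  have h1 : Ind ℕ∞ = 0 :=
    le_antisymm (by simpa using ind_le zero_dim)
      (by simpa using le_ind (X := ℕ∞) (n := 0) (by simp [SLT]))
  have h2 : Ind YY = 2 := by
    refine le_antisymm (by simpa using ind_le SLT_YY) ?_
    have : ¬ SLT 2 (univ : Set YY) := fun h => not_SLT_sq
      ((h.pull LMC.isClosedEmbedding_bs).pull (isClosedEmbedding_pg 0))
    simpa using le_ind this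
  have h3 : (3 : WithTop ℤ) ≤ Ind (ℕ∞ × YY) := by simpa using le_ind not_SLT_prod
  refine ⟨ℕ∞, YY, TopologicalSpace.metrizableSpaceMetric ℕ∞, inferInstance, ⟨0⟩,
    ⟨LMC.bs psiY (pg 0 (0, 0))⟩, inferInstance, inferInstance,
    (inferInstance : NormalSpace (ℕ∞ × YY)), (inferInstance : CompactSpace ℕ∞), inferInstance,
    inferInstance, h1, h2, ?_⟩
  change Ind ℕ∞ + Ind YY < Ind (ℕ∞ × YY)
  rw [h1, h2, zero_add]
  exact lt_of_lt_of_le (by exact_mod_cast (by norm_num : (2 : ℤ) < 3)) h3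

end Pool.Agent.Results.MP_840f9c_gt.Counterexample
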